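import Pool.Agent.helper62.RS.SpecE
import Pool.Agent.helper62.QU.All

set_option autoImplicit false

open scoped MatrixGroups ContDiff Topology UpperHalfPlane ComplexConjugate
open UpperHalfPlane MeasureTheory Filter Set

namespace Pool.Agent.RS

theorem EP2_int (haM : Continuous aM) (f : ℍ → ℝ) (hf : Continuous f) (g : SL(2, ℝ)) :
    Continuous fun t : ℝ => f ((g * aM t) • I) := by
  have h : Continuous fun t : ℝ => (g * aM t) • I := by
    have h1 : Continuous fun t : ℝ => g * aM t := continuous_const.mul haM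
    exact h1.smul continuous_const
  exact hf.comp h

theorem EP2_cont (haM : Continuous aM) (f : ℍ → ℝ) (hf : Continuous f) (T : ℝ) :
    Continuous fun g : SL(2, ℝ) => ∫ t in (0 : ℝ)..T, f ((g * aM t) • I) := by
  have h : Continuous fun p : SL(2, ℝ) × ℝ => f ((p.1 * aM p.2) • I) := by
    have h1 : Continuous fun p : SL(2, ℝ) × ℝ => p.1 * aM p.2 :=
      continuous_fst.mul (haM.comp continuous_snd)
    exact hf.comp (h1.smul continuous_const)
  exact intervalIntegral.continuous_parametric_intervalIntegral_of_continuous' h 0 T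

/-- integrability on `F` of continuous functions -/
theorem EP2_io {Γ : Subgroup SL(2, ℝ)} {F : Set ℍ} (hF : QU.NiceDom Γ F) {E : Type}
    [NormedAddCommGroup E] {u : ℍ → E} (hu : Continuous u) : IntegrableOn u F := by
  obtain ⟨K, hK, hFK⟩ := hF.rel
  exact (hu.continuousOn.integrableOn_compact hK).mono_set hFK

theorem EP2 (hGLC : GLC_stmt) (hGMG : GMG_stmt) (hGFD : GFD_stmt) (hGBD : GBD_stmt) (hEP1 : EP1_stmt)
    (hESM : ESM_stmt) : EP2_stmt := by
  intro Γ F h p hΓ hF hInv hT ε hε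
  have haM : Continuous aM := hGLC.2.2.2.1
  obtain ⟨m, hm⟩ := (QU.A_BDD Γ F h hΓ hF hInv).1
  obtain ⟨m₀, hm₀, hb⟩ : ∃ m₀ : ℝ, 0 ≤ m₀ ∧ ∀ z, -m₀ ≤ h z ∧ h z ≤ m₀ := by
    refine ⟨|m|, abs_nonneg _, fun z => ?_⟩
    have := abs_le.1 ((hm z).trans (le_abs_self m))
    exact this
  obtain ⟨h', hInv', hCD', hd', hb'⟩ := hESM Γ h (-m₀) m₀ (ε / 8) hΓ hInv hb (by positivity)
  have hlam : 0 < 2 * m₀ + 1 := by linarith
  obtain ⟨lam, hlamdef⟩ : ∃ lam : ℝ, lam = 2 * m₀ + 1 := ⟨_, rfl⟩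
  rw [← hlamdef] at hlam
  obtain ⟨V, hV⟩ : ∃ V : ℍ → ℝ, ∀ z, V z = (m₀ - h' z) / lam := ⟨_, fun _ => rfl⟩
  have hVf : V = fun z => (m₀ - h' z) / lam := funext hV
  have hlV : ∀ z, lam * V z = m₀ - h' z := by
    intro z; rw [hV]; field_simp
  have hVcont : Continuous V := by
    rw [hVf]
    exact (continuous_const.sub hInv'.1).div_const _
  have hVInv : QU.Inv Γ V := by
    refine ⟨hVcont, fun γ z => ?_⟩
    rw [hV, hV, hInv'.2]
  have hVCD : QU.CD 2 V := by
    rw [hVf]
    unfold QU.CD at hCD' ⊢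
    have e : QU.onC (fun z => (m₀ - h' z) / lam) = fun w => (m₀ - QU.onC h' w) / lam := rfl
    rw [e]
    exact (contDiffOn_const.sub hCD').div_const _
  have hV01 : ∀ z, 0 ≤ V z ∧ V z ≤ 1 := by
    intro z
    have h1 := hb' z
    rw [hV]
    refine ⟨div_nonneg (by linarith [h1.2]) hlam.le, ?_⟩
    rw [div_le_one hlam, hlamdef]
    linarith [h1.1]
  obtain ⟨T₀, hT₀⟩ := hT
  have hK : ∃ K : Set ℍ, IsCompact K ∧ F ⊆ K := hF.rel
  have hEP1' := hEP1 Γ F V lam (m₀ - p - ε / 8) hΓ hF hVInv hVCD hV01 hlam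
    (by
      refine ⟨max T₀ 0, fun T hT => ?_⟩
      have hT1 : T₀ ≤ T := (le_max_left _ _).trans hT
      have hT2 : 0 ≤ T := (le_max_right _ _).trans hT
      have hpt : ∀ g : SL(2, ℝ), -lam * ∫ t in (0 : ℝ)..T, V ((g * aM t) • I) ≤
          (∫ t in (0 : ℝ)..T, h ((g * aM t) • I)) + (ε / 8 - m₀) * T := by
        intro g
        have e1 : -lam * ∫ t in (0 : ℝ)..T, V ((g * aM t) • I) =
            ∫ t in (0 : ℝ)..T, (h' ((g * aM t) • I) - m₀) := by
          rw [← intervalIntegral.integral_const_mul]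
          refine intervalIntegral.integral_congr fun t _ => ?_
          have := hlV ((g * aM t) • I)
          show -lam * V ((g * aM t) • I) = _
          linarith
        have e2 : (∫ t in (0 : ℝ)..T, h ((g * aM t) • I)) + (ε / 8 - m₀) * T =
            ∫ t in (0 : ℝ)..T, (h ((g * aM t) • I) + (ε / 8 - m₀)) := by
          rw [intervalIntegral.integral_add ((EP2_int haM h hInv.1 g).intervalIntegrable _ _)
            (continuous_const.intervalIntegrable _ _)]
          rw [intervalIntegral.integral_const, smul_eq_mul]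
          ring
        rw [e1, e2]
        refine intervalIntegral.integral_mono_on hT2
          (((EP2_int haM h' hInv'.1 g).sub continuous_const).intervalIntegrable _ _)
          (((EP2_int haM h hInv.1 g).add continuous_const).intervalIntegrable _ _) fun t _ => ?_
        have := (abs_le.1 (hd' ((g * aM t) • I))).2
        linarith
      have hc1 : Continuous fun g : SL(2, ℝ) =>
          Real.exp (-lam * ∫ t in (0 : ℝ)..T, V ((g * aM t) • I)) :=
        Real.continuous_exp.comp (continuous_const.mul (EP2_cont haM V hVcont T))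
      have hc2 : Continuous fun g : SL(2, ℝ) => Real.exp (∫ t in (0 : ℝ)..T, h ((g * aM t) • I)) :=
        Real.continuous_exp.comp (EP2_cont haM h hInv.1 T)
      have hi1 := (hGMG.2.2.2.2 ℝ _ F hc1 hF.meas hK).1
      have hi2 := (hGMG.2.2.2.2 ℝ _ F hc2 hF.meas hK).1
      have h3 : iR F (fun g => Real.exp (-lam * ∫ t in (0 : ℝ)..T, V ((g * aM t) • I))) ≤
          iR F (fun g => Real.exp ((ε / 8 - m₀) * T) *
            Real.exp (∫ t in (0 : ℝ)..T, h ((g * aM t) • I))) := by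
        unfold iR
        refine integral_mono hi1 (hi2.const_mul _) fun g => ?_
        show Real.exp _ ≤ Real.exp _ * Real.exp _
        rw [← Real.exp_add]
        refine Real.exp_le_exp.2 ?_
        have := hpt g
        linarith
      refine h3.trans ?_
      have h4 : iR F (fun g => Real.exp ((ε / 8 - m₀) * T) *
            Real.exp (∫ t in (0 : ℝ)..T, h ((g * aM t) • I))) = Real.exp ((ε / 8 - m₀) * T) *
            iR F (fun g => Real.exp (∫ t in (0 : ℝ)..T, h ((g * aM t) • I))) := by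
        unfold iR
        exact integral_const_mul _ _
      rw [h4]
      refine (mul_le_mul_of_nonneg_left (hT₀ T hT1) (Real.exp_pos _).le).trans (le_of_eq ?_)
      rw [← Real.exp_add]
      congr 1
      ring) (ε / 8) (by positivity)
  obtain ⟨r₀, hr₀, hmain⟩ := hEP1'
  refine ⟨r₀, hr₀, fun r N s φ hr hN hfam => ?_⟩
  have h1 := hmain r N s φ hr hN hfam
  have hφc : ∀ j, Continuous (φ j) := by
    intro j
    have hcd : ContDiffOn ℝ ∞ (QU.onC (φ j)) {w : ℂ | 0 < w.im} := (hfam.2.1 j).1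
    have h2 : Continuous fun z : ℍ => QU.onC (φ j) (z : ℂ) :=
      hcd.continuousOn.comp_continuous UpperHalfPlane.continuous_coe fun z => z.im_pos
    have h3 : (fun z : ℍ => QU.onC (φ j) (z : ℂ)) = φ j := by
      funext z
      unfold QU.onC
      rw [ofComplex_apply]
    rwa [h3] at h2
  have hn : ∀ j, ∫ z in F, ‖φ j z‖ ^ 2 = 1 := by
    intro j
    have h2 := hfam.2.2 j j
    rw [if_pos rfl] at h2
    have h3 : ∫ z in F, φ j z * (starRingEnd ℂ) (φ j z) = ((∫ z in F, ‖φ j z‖ ^ 2 : ℝ) : ℂ) := by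
      rw [← integral_complex_ofReal]
      refine integral_congr_ae (Filter.Eventually.of_forall fun z => ?_)
      show φ j z * (starRingEnd ℂ) (φ j z) = ((‖φ j z‖ ^ 2 : ℝ) : ℂ)
      rw [Complex.mul_conj, Complex.normSq_eq_norm_sq]
    rw [h3] at h2
    exact_mod_cast h2
  have hq : ∀ j, Continuous fun z => ‖φ j z‖ ^ 2 := fun j => (hφc j).norm.pow 2
  have hj : ∀ j, ∫ z in F, h z * ‖φ j z‖ ^ 2 ≤ m₀ + ε / 8 - lam * ∫ z in F, V z * ‖φ j z‖ ^ 2 := by
    intro j
    have i1 : IntegrableOn (fun z => (m₀ + ε / 8) * ‖φ j z‖ ^ 2) F :=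
      EP2_io hF (continuous_const.mul (hq j))
    have i2 : IntegrableOn (fun z => lam * (V z * ‖φ j z‖ ^ 2)) F :=
      EP2_io hF (continuous_const.mul (hVcont.mul (hq j)))
    have i3 : IntegrableOn (fun z => h z * ‖φ j z‖ ^ 2) F := EP2_io hF (hInv.1.mul (hq j))
    have e1 : m₀ + ε / 8 - lam * ∫ z in F, V z * ‖φ j z‖ ^ 2 =
        ∫ z in F, ((m₀ + ε / 8) * ‖φ j z‖ ^ 2 - lam * (V z * ‖φ j z‖ ^ 2)) := by
      rw [integral_sub i1 i2, integral_const_mul, integral_const_mul, hn j, mul_one]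
    rw [e1]
    refine integral_mono i3 (i1.sub i2) fun z => ?_
    have h5 := hlV z
    have h6 := (abs_le.1 (hd' z)).1
    have h7 : 0 ≤ ‖φ j z‖ ^ 2 := by positivity
    show h z * ‖φ j z‖ ^ 2 ≤ (m₀ + ε / 8) * ‖φ j z‖ ^ 2 - lam * (V z * ‖φ j z‖ ^ 2)
    have h8 : lam * (V z * ‖φ j z‖ ^ 2) = (m₀ - h' z) * ‖φ j z‖ ^ 2 := by
      rw [← mul_assoc, h5]
    rw [h8, ← sub_mul]
    refine mul_le_mul_of_nonneg_right ?_ h7
    linarith
  have hN0 : (0 : ℝ) < N := by exact_mod_cast hN
  have hsum : (∑ j, ∫ z in F, h z * ‖φ j z‖ ^ 2) / N ≤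
      m₀ + ε / 8 - lam * ((∑ j, ∫ z in F, V z * ‖φ j z‖ ^ 2) / N) := by
    rw [div_le_iff₀ hN0]
    refine (Finset.sum_le_sum fun j _ => hj j).trans (le_of_eq ?_)
    rw [Finset.sum_sub_distrib, Finset.sum_const, Finset.card_univ, Fintype.card_fin, nsmul_eq_mul,
      ← Finset.mul_sum]
    field_simp
  linarith

end Pool.Agent.RS
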